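import Pool.Agent.Helper15.FC.Fin
import Pool.Agent.Helper15.FC.All

set_option autoImplicit false

/-!
Shifted correlations of the divisor functions `d_k` and `d_l` over `F[X]`, `F` a finite field with
`q` elements: asymptotic formula with power saving for almost all shifts `h` of degree `< m`,
simultaneously for all `n` with `m ≤ n ≤ q^(δ m)`.
-/

open Polynomial

namespace Pool.Agent.Results.MP_16cbc0_nt.AlmostAllShifts

open Pool.Agent.Helper15.FC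

theorem result (F : Type) [Field F] [Fintype F] (k l : ℕ) (hk : 1 ≤ k) (hl : 1 ≤ l) :
    ∃ P P' p : F[X] → ℝ[X],
      (∀ r : F[X], r.Monic → (P r).natDegree ≤ k - 1 ∧
        ∀ n : ℕ, k * r.natDegree ≤ n →
          (1 / (phi r : ℝ)) * ∑ f ∈ Mn F n, (dk k f : ℝ) * (cram r f : ℝ) =
            (Fintype.card F : ℝ) ^ n * (P r).eval (n : ℝ)) ∧
      (∀ r : F[X], r.Monic → (P' r).natDegree ≤ l - 1 ∧
        ∀ n : ℕ, l * r.natDegree ≤ n →
          (1 / (phi r : ℝ)) * ∑ f ∈ Mn F n, (dk l f : ℝ) * (cram r f : ℝ) =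
            (Fintype.card F : ℝ) ^ n * (P' r).eval (n : ℝ)) ∧
      (∀ h : F[X], h ≠ 0 → (p h).natDegree ≤ k + l - 2 ∧
        (∀ n : ℕ, HasSum (fun i : ℕ => ∑ r ∈ Mn F i,
          (P r).eval (n : ℝ) * (P' r).eval (n : ℝ) * (cram r h : ℝ)) ((p h).eval (n : ℝ))) ∧
        HasSum (fun i : ℕ => ∑ r ∈ Mn F i, Gk (k - 1) r * Gk (l - 1) r *
          ((Fintype.card F : ℝ) ^ (2 * i))⁻¹ * (cram r h : ℝ))
          (((k - 1).factorial : ℝ) * ((l - 1).factorial : ℝ) * (p h).coeff (k + l - 2))) ∧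
      (∃ c : ℝ, 0 < c ∧ ∀ h : F[X], h ≠ 0 → c ≤ (p h).coeff (k + l - 2)) ∧
      ∃ δ C : ℝ, 0 < δ ∧ 0 < C ∧ ∀ m : ℕ, ∃ E : Finset F[X],
        (E.card : ℝ) ≤ C * (Fintype.card F : ℝ) ^ ((1 - δ) * m) ∧
        ∀ h : F[X], h ≠ 0 → h.degree < m → h ∉ E →
          ∀ n : ℕ, m ≤ n → (n : ℝ) ≤ (Fintype.card F : ℝ) ^ (δ * m) →
            |((∑ f ∈ Mn F n, dk k f * dk l (f + h) : ℕ) : ℝ) -
                (Fintype.card F : ℝ) ^ n * (p h).eval (n : ℝ)| ≤
              C * (Fintype.card F : ℝ) ^ (-(δ * m)) *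
                ((Fintype.card F : ℝ) ^ n * (p h).eval (n : ℝ)) :=
  finOf gPOL gPLY gKLC gSSP gTAL gFN2 F k l hk hl

end Pool.Agent.Results.MP_16cbc0_nt.AlmostAllShifts
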