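import Pool.Agent.Helper15.EP.Fin
import Pool.Agent.Helper15.EP.All

set_option autoImplicit false

/-!
Shifted correlations of the divisor functions `d_k` and `d_l` over `F[X]`, `F` a finite field with
`q` elements, for EVERY fixed shift `h ≠ 0`: asymptotic formula with power saving for the number of
solutions of `a_1 ⋯ a_k + h = b_1 ⋯ b_l` for large sets of degree patterns, and the resulting
asymptotic lower bounds (for `k = l = 3` with at least `24/25` of the expected main term).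
-/

open Polynomial

namespace Pool.Agent.Results.MP_16cbc0_nt.EveryShift

open Pool.Agent.Helper15.FC

theorem result (F : Type) [Field F] [Fintype F] (k l : ℕ) (hk : 1 ≤ k) (hl : 1 ≤ l) (h : F[X])
    (hh : h ≠ 0) :
    ∃ S : ℝ, 0 < S ∧
      HasSum (fun i : ℕ => ∑ r ∈ Mn F i, Gk (k - 1) r * Gk (l - 1) r *
        ((Fintype.card F : ℝ) ^ (2 * i))⁻¹ * (cram r h : ℝ)) S ∧
      (∀ ε : ℝ, 0 < ε → ∃ δ : ℝ, 0 < δ ∧ ∃ n0 : ℕ, ∀ n : ℕ, n0 ≤ n →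
        ∀ (x : Fin k → ℕ) (y : Fin l → ℕ), ∑ i, x i = n → ∑ j, y j = n →
        (∀ i, ε * n ≤ x i) → (∀ j, ε * n ≤ y j) →
        ((∃ i, (1 / 2 + ε) * n ≤ x i) ∨ (∃ j, (1 / 2 + ε) * n ≤ y j) ∨
          (∃ i j j', j ≠ j' ∧ 3 / 2 * ((n : ℝ) - x i) + ε * n ≤ (y j : ℝ) + y j') ∨
          (∃ j i i', i ≠ i' ∧ 3 / 2 * ((n : ℝ) - y j) + ε * n ≤ (x i : ℝ) + x i')) →
        |(Nat.card {p : (Fin k → F[X]) × (Fin l → F[X]) //
            (∀ i, (p.1 i).Monic ∧ (p.1 i).natDegree = x i) ∧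
            (∀ j, (p.2 j).Monic ∧ (p.2 j).natDegree = y j) ∧
            (∏ i, p.1 i) + h = ∏ j, p.2 j} : ℝ) - S * (Fintype.card F : ℝ) ^ n| ≤
          (Fintype.card F : ℝ) ^ ((1 - δ) * n)) ∧
      (∀ η : ℝ, 0 < η → ∃ n0 : ℕ, ∀ n : ℕ, n0 ≤ n →
        (1 - (1 - (k : ℝ) / 2 ^ (k - 1)) * (1 - (l : ℝ) / 2 ^ (l - 1)) - η) *
          (S * (Fintype.card F : ℝ) ^ n * (n : ℝ) ^ (k + l - 2) /
            ((k - 1).factorial * (l - 1).factorial)) ≤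
          ((∑ f ∈ Mn F n, dk k f * dk l (f + h) : ℕ) : ℝ)) ∧
      (k = 3 → l = 3 → ∃ n0 : ℕ, ∀ n : ℕ, n0 ≤ n →
        24 / 25 * (S * (Fintype.card F : ℝ) ^ n * (n : ℝ) ^ 4 / 4) ≤
          ((∑ f ∈ Mn F n, dk 3 f * dk 3 (f + h) : ℕ) : ℝ)) :=
  Pool.Agent.Helper15.EP.finOf Pool.Agent.Helper15.EP.ePT2 Pool.Agent.Helper15.EP.eFNE gSSP
    F k l hk hl h hh

end Pool.Agent.Results.MP_16cbc0_nt.EveryShift
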