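import Pool.Agent.Helper30.UB.All

set_option autoImplicit false

/-!
An upper bound of the right order of magnitude for the shifted correlations of the divisor
functions `d_k` and `d_l` over `F[X]`, for EVERY fixed shift `h ≠ 0`: the constant depends only on
`k` and `l`, not on the finite field `F` and not on `h`.
-/

open Polynomial

namespace Pool.Agent.Results.MP_16cbc0_nt.UpperBound

open Pool.Agent.Helper15.FC

theorem result (k l : ℕ) (hk : 1 ≤ k) (hl : 1 ≤ l) :
    ∃ C : ℝ, 0 < C ∧ ∀ (F : Type) [Field F] [Fintype F] (h : F[X]), h ≠ 0 →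
      ∃ n₀ : ℕ, ∀ n : ℕ, n₀ ≤ n →
        ((∑ f ∈ Mn F n, dk k f * dk l (f + h) : ℕ) : ℝ) ≤
          C * (∑ g ∈ Dv h, (dk k g : ℝ) * (dk l g : ℝ) / (Fintype.card F : ℝ) ^ g.natDegree) *
            (Fintype.card F : ℝ) ^ n * (n : ℝ) ^ (k + l - 2) :=
  Pool.Agent.Helper30.UB.pFUB k l hk hl

end Pool.Agent.Results.MP_16cbc0_nt.UpperBound
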